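import Mathlib

/-! Three ordered blocks whose unions (except the first block alone) have one colour. -/

set_option autoImplicit false

namespace Pool.Agent.H671Z.SP

open Hindman

/-- the stream of one-letter words `n, n+1, ...` -/
def gen (n : ℕ) : Stream' (FreeMonoid ℕ) := fun i => FreeMonoid.of (n + i)

theorem gen_tail (n : ℕ) : (gen n).tail = gen (n + 1) := by
  funext i
  simp only [gen, Stream'.tail, Stream'.get]
  congr 1
  omega

theorem fp_sorted {a : Stream' (FreeMonoid ℕ)} {m : FreeMonoid ℕ} (h : m ∈ FP a) :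
    ∀ n, a = gen n → m.toList ≠ [] ∧ m.toList.Pairwise (· < ·) ∧ ∀ i ∈ m.toList, n ≤ i := by
  induction h with
  | head' a =>
    rintro n rfl
    simp [gen, Stream'.head, Stream'.get]
  | tail' a m _ ih =>
    rintro n rfl
    obtain ⟨h1, h2, h3⟩ := ih (n + 1) (gen_tail n)
    exact ⟨h1, h2, fun i hi => by have := h3 i hi; omega⟩
  | cons' a m _ ih =>
    rintro n rfl
    obtain ⟨h1, h2, h3⟩ := ih (n + 1) (gen_tail n)
    have e : ((gen n).head * m).toList = n :: m.toList := by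
      simp [gen, Stream'.head, Stream'.get]
    rw [e]
    refine ⟨by simp, List.pairwise_cons.2 ⟨fun i hi => by have := h3 i hi; omega, h2⟩, ?_⟩
    intro i hi
    rcases List.mem_cons.1 hi with rfl | hi
    · exact le_rfl
    · have := h3 i hi; omega

/-- the pattern -/
def Pat {κ : Type} (f : Finset ℕ → κ) (I J K : Finset ℕ) : Prop :=
  I.Nonempty ∧ J.Nonempty ∧ K.Nonempty ∧ (∀ i ∈ I, ∀ j ∈ J, i < j) ∧ (∀ j ∈ J, ∀ k ∈ K, j < k) ∧
    f K = f J ∧ f (J ∪ K) = f J ∧ f (I ∪ J) = f J ∧ f (I ∪ K) = f J ∧ f (I ∪ (J ∪ K)) = f J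

theorem pat_inf {κ : Type} [Finite κ] (f : Finset ℕ → κ) : ∃ I J K, Pat f I J K := by
  classical
  obtain ⟨c, ⟨col, rfl⟩, b, hb⟩ := FP_partition_regular (gen 0)
    (Set.range fun col : κ => {m | m ∈ FP (gen 0) ∧ f m.toList.toFinset = col})
    (Set.finite_range _) (fun m hm => ⟨_, ⟨f m.toList.toFinset, rfl⟩, hm, rfl⟩)
  have h0 := hb (FP.singleton b 0)
  have h1 := hb (FP.singleton b 1)
  have h2 := hb (FP.singleton b 2)
  have h01 := hb (FP.mul_two b 0 1 (by omega))
  have h02 := hb (FP.mul_two b 0 2 (by omega))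
  have h12 := hb (FP.mul_two b 1 2 (by omega))
  have h012 : b.get 0 * (b.get 1 * b.get 2) ∈ FP b :=
    FP.cons b _ (FP.mul_two b.tail 0 1 (by omega))
  have h012 := hb h012
  simp only [Set.mem_ofPred_eq, FreeMonoid.toList_mul, List.toFinset_append] at h0 h1 h2 h01 h02 h12 h012
  have s0 := fp_sorted h0.1 0 rfl
  have s1 := fp_sorted h1.1 0 rfl
  have s2 := fp_sorted h2.1 0 rfl
  have s01 := (fp_sorted h01.1 0 rfl).2.1
  have s12 := (fp_sorted h12.1 0 rfl).2.1
  rw [FreeMonoid.toList_mul, List.pairwise_append] at s01 s12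
  refine ⟨(b.get 0).toList.toFinset, (b.get 1).toList.toFinset, (b.get 2).toList.toFinset,
    by simpa using s0.1, by simpa using s1.1, by simpa using s2.1,
    fun i hi j hj => s01.2.2 i (by simpa using hi) j (by simpa using hj),
    fun i hi j hj => s12.2.2 i (by simpa using hi) j (by simpa using hj),
    h2.2.trans h1.2.symm, h12.2.trans h1.2.symm, h01.2.trans h1.2.symm, h02.2.trans h1.2.symm,
    h012.2.trans h1.2.symm⟩

theorem pat_fin (κ : Type) [Finite κ] : ∃ N : ℕ, ∀ f : Finset ℕ → κ,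
    ∃ I J K, Pat f I J K ∧ ∀ k ∈ K, k < N := by
  classical
  by_contra h
  push Not at h
  choose F hF using h
  have hl : ∀ S : Finset ℕ, ∃ c : κ, ∀ᶠ N in (Filter.hyperfilter ℕ : Filter ℕ), F N S = c := by
    intro S
    have := Ultrafilter.eventually_exists_iff (f := Filter.hyperfilter ℕ) (P := fun (c : κ) N => F N S = c)
    exact this.1 (Filter.Eventually.of_forall fun N => ⟨_, rfl⟩)
  choose f hf using hl
  obtain ⟨I, J, K, h1, h2, h3, h4, h5, e1, e2, e3, e4, e5⟩ := pat_inf f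
  have hbig : ∀ᶠ N in (Filter.hyperfilter ℕ : Filter ℕ), K.sup id < N :=
    Filter.hyperfilter_le_cofinite (by rw [Nat.cofinite_eq_atTop]; exact Filter.eventually_gt_atTop _)
  obtain ⟨N, hN, a1, a2, a3, a4, a5, a6⟩ := (hbig.and ((hf J).and ((hf K).and ((hf (J ∪ K)).and
    ((hf (I ∪ J)).and ((hf (I ∪ K)).and (hf (I ∪ (J ∪ K))))))))).exists
  obtain ⟨k, hk, hk2⟩ := hF N I J K ⟨h1, h2, h3, h4, h5, by rw [a1, a2, e1], by rw [a1, a3, e2],
    by rw [a1, a4, e3], by rw [a1, a5, e4], by rw [a1, a6, e5]⟩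
  have : k ≤ K.sup id := Finset.le_sup (f := id) hk
  omega

end Pool.Agent.H671Z.SP
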