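import Pool.Agent.H165Z.Pvdw.Basic

/-! Rationals whose products keep their colour under shifts by lower Laurent monomials. -/

set_option autoImplicit false

namespace Pool.Agent.H671Z.SP

open Finset Polynomial

/-- the admissible monomials at level `k` -/
def G (k : ℕ) : Finset (Finset ℕ × Finset ℕ) :=
  ((range k).powerset ×ˢ (range k).powerset).filter
    fun s => s.1.Nonempty ∧ ∀ j ∈ s.1, ∀ i ∈ s.2, j < i

theorem mem_G {k : ℕ} {s : Finset ℕ × Finset ℕ} : s ∈ G k ↔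
    (s.1 ⊆ range k ∧ s.2 ⊆ range k) ∧ s.1.Nonempty ∧ ∀ j ∈ s.1, ∀ i ∈ s.2, j < i := by
  simp [G]

theorem G_mono {k k' : ℕ} (h : k ≤ k') : G k ⊆ G k' := by
  intro s hs
  rw [mem_G] at hs ⊢
  exact ⟨⟨hs.1.1.trans (range_mono h), hs.1.2.trans (range_mono h)⟩, hs.2⟩

/-- the monomial of a pair -/
def mon (x : ℕ → ℚ) (s : Finset ℕ × Finset ℕ) : ℚ := (∏ i ∈ s.1, x i) / ∏ i ∈ s.2, x i

/-- a shift at level `k` -/
def shift (x : ℕ → ℚ) (k : ℕ) (c : Finset ℕ × Finset ℕ → ℚ) : ℚ := ∑ s ∈ G k, c s * mon x s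

/-- the tasks in `T` can be met for every colouring and every finite coefficient set -/
def Claim (T : Finset (ℕ × Finset ℕ)) : Prop :=
  ∀ (κ : Type) [Finite κ] (χ : ℚ → κ) (C : Finset ℚ), ∃ x : ℕ → ℚ, x 0 ≠ 0 ∧
    ∀ t ∈ T, ∀ c : Finset ℕ × Finset ℕ → ℚ, (∀ s ∈ G t.1, c s ∈ C) →
      χ ((∏ i ∈ t.2, x i) * (x t.1 + shift x t.1 c)) = χ ((∏ i ∈ t.2, x i) * x t.1)

/-- weight of a set -/
def w (k : ℕ) (B : Finset ℕ) : ℕ := ∑ i ∈ B, 2 ^ (k - i)

theorem geo (k j : ℕ) : ∀ n, n ≤ k → j < n → ∑ i ∈ Ico (j + 1) n, 2 ^ (k - i) + 2 ^ (k + 1 - n)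
    = 2 ^ (k - j) := by
  intro n hn hj
  induction n, hj using Nat.le_induction with
  | base => simp
  | succ n hjn ih =>
    rw [sum_Ico_succ_top hjn, ← ih (by omega), show k + 1 - n = (k - n) + 1 by omega,
      show k + 1 - (n + 1) = k - n by omega, pow_succ]
    ring

theorem w_lt {k : ℕ} {s : Finset ℕ × Finset ℕ} (hs : s ∈ G k) : w k s.2 < w k s.1 := by
  obtain ⟨⟨h1, h2⟩, ⟨j, hj⟩, h3⟩ := mem_G.1 hs
  have hjk : j < k := mem_range.1 (h1 hj)
  have a1 : 2 ^ (k - j) ≤ w k s.1 :=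
    single_le_sum (f := fun i => 2 ^ (k - i)) (fun _ _ => Nat.zero_le _) hj
  have a2 : w k s.2 ≤ ∑ i ∈ Ico (j + 1) k, 2 ^ (k - i) :=
    sum_le_sum_of_subset fun i hi => mem_Ico.2 ⟨h3 j hj i hi, mem_range.1 (h2 hi)⟩
  have a3 := geo k j k le_rfl hjk
  have a4 : 0 < 2 ^ (k + 1 - k) := by positivity
  omega

theorem step (T : Finset (ℕ × Finset ℕ)) (k : ℕ) (A : Finset ℕ) (hA : A ⊆ range k)
    (hT : ∀ t ∈ T, t.1 ≤ k ∧ t.2 ⊆ range t.1) (h : Claim T) : Claim (insert (k, A) T) := by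
  classical
  intro κ _ χ C
  let σ := ↥(G k)
  let α : Finset ℕ × Finset ℕ → ℕ := fun s => w k A + w k s.1 - w k s.2
  let p : (σ → ℚ) → (σ → ℚ)[X] := fun c => ∑ s : σ, Polynomial.C (Pi.single s (c s)) * X ^ α s.1
  have hp : ∀ (c : σ → ℚ) (d : ℕ) (s : σ), (p c).eval (d : σ → ℚ) s = c s * (d : ℚ) ^ α s.1 := by
    intro c d s
    simp only [p, eval_finsetSum, eval_mul, eval_C, eval_pow, eval_X, Finset.sum_apply, Pi.mul_apply,
      Pi.pow_apply, Pi.natCast_apply]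
    rw [sum_eq_single s]
    · simp
    · intro b _ hb
      rw [Pi.single_eq_of_ne hb.symm, zero_mul]
    · simp
  obtain ⟨S, M, hS⟩ := Pool.Agent.H165Z.Pvdw.vdw ((Fintype.piFinset fun _ : σ => C).image p) (by
    intro q hq
    obtain ⟨c, -, rfl⟩ := mem_image.1 hq
    simp only [p, finsetSum_coeff, coeff_C_mul, coeff_X_pow]
    refine sum_eq_zero fun s _ => ?_
    have := w_lt s.2
    rw [if_neg (by simp only [α]; omega), mul_zero]) κ
  let μ : ℕ → ℕ → ℚ := fun d i => if i = k then 1 / (d : ℚ) ^ w k A else (d : ℚ) ^ (2 ^ (k - i))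
  let C1 : Finset ℚ := (C ×ˢ Icc 1 M ×ˢ G k ×ˢ range k).image
    fun z => z.1 * ((z.2.1 : ℚ) ^ w k z.2.2.1.1 / (z.2.1 : ℚ) ^ w k z.2.2.1.2) / μ z.2.1 z.2.2.2
  let C2 : Finset ℚ := (S ×ˢ (univ : Finset σ) ×ˢ insert 0 C ×ˢ Icc 1 M).image
    fun z => z.1 z.2.1 + z.2.2.1 * (z.2.2.2 : ℚ) ^ α z.2.1.1
  obtain ⟨x, hx0, hx⟩ := h (↥(Icc 1 M) × ↥T → κ)
    (fun y z => χ (((z.1.1 : ℚ) ^ w k z.2.1.2 * μ z.1.1 z.2.1.1) * y)) (C1 ∪ C2)
  obtain ⟨a, ha, d, hd1, hd2, hd⟩ :=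
    hS fun a => χ ((∏ i ∈ A, x i) * (x k + ∑ s : σ, a s * mon x s.1))
  have hdI : d ∈ Icc 1 M := mem_Icc.2 ⟨hd1, hd2⟩
  have hd0 : (d : ℚ) ≠ 0 := Nat.cast_ne_zero.2 (by omega)
  have hμ0 : ∀ i, μ d i ≠ 0 := by
    intro i
    simp only [μ]
    split_ifs <;> positivity
  let x' : ℕ → ℚ := fun i => μ d i * (if i = k then x k + ∑ s : σ, a s * mon x s.1 else x i)
  have hprod : ∀ B : Finset ℕ, B ⊆ range k → ∏ i ∈ B, x' i = (d : ℚ) ^ w k B * ∏ i ∈ B, x i := by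
    intro B hB
    rw [w, ← prod_pow_eq_pow_sum, ← prod_mul_distrib]
    refine prod_congr rfl fun i hi => ?_
    have : i ≠ k := (mem_range.1 (hB hi)).ne
    simp only [x', μ, if_neg this]
  have hmon : ∀ s ∈ G k, mon x' s = (d : ℚ) ^ w k s.1 / (d : ℚ) ^ w k s.2 * mon x s := by
    intro s hs
    obtain ⟨⟨h1, h2⟩, -⟩ := mem_G.1 hs
    rw [mon, hprod _ h1, hprod _ h2, mon, mul_div_mul_comm]
  have hk : ∀ c : Finset ℕ × Finset ℕ → ℚ, x' k + shift x' k c =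
      μ d k * (x k + ∑ s : σ, (a s + c s.1 * (d : ℚ) ^ α s.1) * mon x s.1) := by
    intro c
    have e1 : shift x' k c = μ d k * ∑ s : σ, (c s.1 * (d : ℚ) ^ α s.1) * mon x s.1 := by
      rw [shift, ← sum_coe_sort, mul_sum]
      refine sum_congr rfl fun s _ => ?_
      have := w_lt s.2
      have e2 : (d : ℚ) ^ α s.1 = (d : ℚ) ^ w k A * (d : ℚ) ^ w k s.1.1 / (d : ℚ) ^ w k s.1.2 := by
        simp only [α]
        rw [pow_sub₀ _ hd0 (by omega), pow_add, div_eq_mul_inv]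
      rw [hmon _ s.2, e2]
      simp only [μ, if_true]
      field_simp
    rw [e1]
    simp only [x', if_true, add_mul, sum_add_distrib]
    ring
  have hk0 : x' k = μ d k * (x k + ∑ s : σ, a s * mon x s.1) := by simp only [x', if_true]
  refine ⟨x', ?_, ?_⟩
  · refine mul_ne_zero (hμ0 0) ?_
    split_ifs with h0
    · subst h0
      rw [sum_eq_zero, add_zero]
      · exact hx0
      · intro s _
        obtain ⟨⟨h1, -⟩, ⟨j, hj⟩, -⟩ := mem_G.1 s.2
        simpa using h1 hj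
    · exact hx0
  intro t ht c hc
  rcases mem_insert.1 ht with rfl | ht
  · have e1 := hd (p fun s => c s.1) (mem_image.2 ⟨fun s => c s.1,
      Fintype.mem_piFinset.2 fun s => hc _ s.2, rfl⟩)
    simp only [Pi.add_apply, hp] at e1
    have e2 : (d : ℚ) ^ w k A * μ d k = 1 := by
      simp only [μ, if_true]
      field_simp
    have e3 : ∀ y : ℚ, (d : ℚ) ^ w k A * (∏ i ∈ A, x i) * (μ d k * y) = (∏ i ∈ A, x i) * y := by
      intro y
      linear_combination ((∏ i ∈ A, x i) * y) * e2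
    simp only
    rw [hk, hk0, hprod _ hA, e3, e3, e1]
  obtain ⟨h1, h2⟩ := hT t ht
  have h3 : t.2 ⊆ range k := h2.trans (range_mono h1)
  have hx' : ∀ c : Finset ℕ × Finset ℕ → ℚ, (∀ s ∈ G t.1, c s ∈ C1 ∪ C2) →
      χ ((d : ℚ) ^ w k t.2 * (∏ i ∈ t.2, x i) * (μ d t.1 * (x t.1 + shift x t.1 c))) =
      χ ((d : ℚ) ^ w k t.2 * (∏ i ∈ t.2, x i) * (μ d t.1 * x t.1)) := by
    intro c hc
    have := congrFun (hx t ht c hc) (⟨d, hdI⟩, ⟨t, ht⟩)
    simp only at this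
    convert this using 2 <;> ring
  rcases h1.lt_or_eq with h1 | h1
  · have e0 : x' t.1 = μ d t.1 * x t.1 := by simp only [x', if_neg h1.ne]
    have e1 : x' t.1 + shift x' t.1 c = μ d t.1 * (x t.1 + shift x t.1
        fun s => c s * ((d : ℚ) ^ w k s.1 / (d : ℚ) ^ w k s.2) / μ d t.1) := by
      rw [e0, mul_add, shift, shift, mul_sum]
      congr 1
      refine sum_congr rfl fun s hs => ?_
      rw [hmon _ (G_mono h1.le hs)]
      have := hμ0 t.1
      field_simp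
    rw [e1, e0, hprod _ h3]
    refine hx' _ fun s hs => mem_union_left _ (mem_image.2 ⟨(c s, d, s, t.1), ?_, rfl⟩)
    simp only [mem_product, mem_range]
    exact ⟨hc s hs, hdI, G_mono h1.le hs, h1⟩
  · have e1 : ∀ c' : Finset ℕ × Finset ℕ → ℚ, (∀ s ∈ G k, c' s ∈ insert 0 C) →
        χ ((d : ℚ) ^ w k t.2 * (∏ i ∈ t.2, x i) * (μ d k *
          (x k + ∑ s : σ, (a s + c' s.1 * (d : ℚ) ^ α s.1) * mon x s.1))) =
        χ ((d : ℚ) ^ w k t.2 * (∏ i ∈ t.2, x i) * (μ d k * x k)) := by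
      intro c' hc'
      have e2 := hx' (fun s => if h : s ∈ G k then a ⟨s, h⟩ + c' s * (d : ℚ) ^ α s else 0) (by
        intro s hs
        rw [h1] at hs
        rw [dif_pos hs]
        refine mem_union_right _ (mem_image.2 ⟨(a, ⟨s, hs⟩, c' s, d), ?_, rfl⟩)
        simp only [mem_product, mem_univ, true_and]
        exact ⟨ha, hc' s hs, hdI⟩)
      rw [h1, shift, ← sum_coe_sort] at e2
      rw [← e2]
      congr 4
      refine sum_congr rfl fun s _ => ?_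
      rw [dif_pos s.2]
    have e3 := e1 (fun _ => 0) (fun _ _ => mem_insert_self _ _)
    simp only [zero_mul, add_zero] at e3
    rw [h1, hk, hk0, hprod _ h3, e3]
    exact e1 c fun s hs => mem_insert_of_mem (hc s (h1 ▸ hs))

theorem claim (T : Finset (ℕ × Finset ℕ)) : (∀ t ∈ T, t.2 ⊆ range t.1) → Claim T := by
  classical
  refine Finset.induction_on_max_value (fun t : ℕ × Finset ℕ => t.1) T ?_ ?_
  · exact fun _ κ _ χ C => ⟨fun _ => 1, one_ne_zero, by simp⟩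
  · intro t T _ hmax ih hT
    exact step T t.1 t.2 (hT t (mem_insert_self _ _))
      (fun u hu => ⟨hmax u hu, hT u (mem_insert_of_mem hu)⟩)
      (ih fun u hu => hT u (mem_insert_of_mem hu))

end Pool.Agent.H671Z.SP
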