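import Pool.Agent.H671Z.SP.Blocks
import Pool.Agent.H671Z.SP.Shift

/-! Monochromatic shifts and dilates of `{b, c, b + c, b c}` in the rationals. -/

set_option autoImplicit false

namespace Pool.Agent.H671Z.SP

open Finset

theorem shift_one (x : ℕ → ℚ) {k : ℕ} {s : Finset ℕ × Finset ℕ} (hs : s ∈ G k) (u : ℚ) :
    shift x k (fun z => if z = s then u else 0) = u * mon x s := by
  classical
  simp [shift, ite_mul, hs]

theorem shift_add (x : ℕ → ℚ) (k : ℕ) (c c' : Finset ℕ × Finset ℕ → ℚ) :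
    shift x k (fun z => c z + c' z) = shift x k c + shift x k c' := by
  simp [shift, add_mul, sum_add_distrib]

theorem main {κ : Type} [Finite κ] (χ : ℚ → κ) (h0 : ∀ y, χ y = χ 0 → y = 0) : ∃ a b c : ℚ,
      a ≠ 0 ∧ b ≠ 0 ∧ c ≠ 0 ∧ b ≠ c ∧
      χ (a + c) = χ (a + b) ∧
      χ (a + (b + c)) = χ (a + b) ∧
      χ (a + b * c) = χ (a + b) ∧
      χ (a * b) = χ (a + b) ∧
      χ (a * c) = χ (a + b) ∧
      χ (a * (b + c)) = χ (a + b) ∧
      χ (a * (b * c)) = χ (a + b) := by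
  classical
  obtain ⟨N, hN⟩ := pat_fin κ
  obtain ⟨x, hx0, hx⟩ := claim ((range N ×ˢ (range N).powerset).filter fun t => t.2 ⊆ range t.1)
    (fun t ht => (mem_filter.1 ht).2) κ χ {0, 1, -1, 2}
  have hx1 : ∀ k < N, ∀ A ⊆ range k, ∀ c : Finset ℕ × Finset ℕ → ℚ,
      (∀ s, c s ∈ ({0, 1, -1, 2} : Finset ℚ)) →
      χ ((∏ i ∈ A, x i) * (x k + shift x k c)) = χ ((∏ i ∈ A, x i) * x k) := fun k hk A hA c hc =>
    hx (k, A) (mem_filter.2 ⟨mem_product.2 ⟨mem_range.2 hk,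
      mem_powerset.2 (hA.trans (range_mono hk.le))⟩, hA⟩) c fun s _ => hc s
  have hne : ∀ k < N, x k ≠ 0 := by
    intro k hk hxk
    rcases Nat.eq_zero_or_pos k with rfl | hpos
    · exact hx0 hxk
    have hs : (({0}, ∅) : Finset ℕ × Finset ℕ) ∈ G k := mem_G.2 ⟨⟨by simpa using hpos, by simp⟩,
      by simp, by simp⟩
    have := hx1 k hk ∅ (by simp) (fun z => if z = ({0}, ∅) then 1 else 0) (by
      intro s; split_ifs <;> simp)
    rw [shift_one x hs, hxk] at this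
    simp only [prod_empty, one_mul, zero_add, mul_zero, mon, prod_singleton, div_one] at this
    exact hx0 (h0 _ this)
  have hP : ∀ B : Finset ℕ, (∀ i ∈ B, i < N) → ∏ i ∈ B, x i ≠ 0 := fun B hB =>
    prod_ne_zero_iff.2 fun i hi => hne i (hB i hi)
  -- shifts of a product by at most two lower products
  have key : ∀ (B A I J : Finset ℕ) (u v : ℚ), B.Nonempty → (∀ i ∈ B, i < N) →
      (∀ i ∈ A, ∀ j ∈ B, i < j) → I.Nonempty → J.Nonempty → (∀ i ∈ I, ∀ j ∈ B, i < j) →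
      (∀ i ∈ J, ∀ j ∈ B, i < j) → u ∈ ({0, 1} : Finset ℚ) → v ∈ ({0, 1} : Finset ℚ) ∨ (u = 0 ∧ v = -1) →
      χ ((∏ i ∈ A, x i) * ((∏ i ∈ B, x i) + (u * ∏ i ∈ I, x i + v * ∏ i ∈ J, x i))) =
        χ ((∏ i ∈ A, x i) * ∏ i ∈ B, x i) := by
    intro B A I J u v hB hBN hAB hI hJ hIB hJB hu hv
    let k := B.max' hB
    have hkB : k ∈ B := B.max'_mem hB
    have hlt : ∀ i ∈ B.erase k, i < k := fun i hi =>
      lt_of_le_of_ne (B.le_max' i (mem_of_mem_erase hi)) (ne_of_mem_erase hi)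
    have hG : ∀ I : Finset ℕ, I.Nonempty → (∀ i ∈ I, ∀ j ∈ B, i < j) → (I, B.erase k) ∈ G k :=
      fun I hI hIB => mem_G.2 ⟨⟨fun i hi => mem_range.2 (hIB i hi k hkB),
        fun i hi => mem_range.2 (hlt i hi)⟩, hI, fun j hj i hi => hIB j hj i (mem_of_mem_erase hi)⟩
    have hdisj : Disjoint A (B.erase k) := disjoint_left.2 fun i hi hi' =>
      lt_irrefl _ (hAB i hi i (mem_of_mem_erase hi'))
    have h1 := hx1 k (hBN k hkB) (A ∪ B.erase k) (fun i hi => mem_range.2 (by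
        rcases mem_union.1 hi with hi | hi
        · exact hAB i hi k hkB
        · exact hlt i hi))
      (fun z => (if z = (I, B.erase k) then u else 0) + if z = (J, B.erase k) then v else 0) (by
        intro s
        simp only [mem_insert, mem_singleton] at hu hv ⊢
        rcases hv with (rfl | rfl) | ⟨rfl, rfl⟩ <;> rcases hu with hu | hu <;>
          split_ifs <;> simp [hu] <;> norm_num)
    rw [shift_add, shift_one x (hG I hI hIB), shift_one x (hG J hJ hJB), prod_union hdisj] at h1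
    have h2 : ∏ i ∈ B, x i = (∏ i ∈ B.erase k, x i) * x k := (prod_erase_mul B x hkB).symm
    have h3 : ∏ i ∈ B.erase k, x i ≠ 0 := hP _ fun i hi => hBN i (mem_of_mem_erase hi)
    rw [h2]
    convert h1 using 2
    · simp only [mon]
      field_simp
    · ring
  obtain ⟨I, J, K, ⟨hI, hJ, hK, hIJ, hJK, e1, e2, e3, e4, e5⟩, hKN⟩ :=
    hN fun B => χ (∏ i ∈ B, x i)
  obtain ⟨k0, hk0⟩ := id hK
  obtain ⟨j0, hj0⟩ := id hJ
  have hIK : ∀ i ∈ I, ∀ k ∈ K, i < k := fun i hi k hk => (hIJ i hi j0 hj0).trans (hJK j0 hj0 k hk)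
  have hJN : ∀ j ∈ J, j < N := fun j hj => (hJK j hj k0 hk0).trans (hKN k0 hk0)
  have hIN : ∀ j ∈ I, j < N := fun j hj => (hIK j hj k0 hk0).trans (hKN k0 hk0)
  have dj : ∀ {A B : Finset ℕ}, (∀ i ∈ A, ∀ j ∈ B, i < j) → Disjoint A B := fun h =>
    disjoint_left.2 fun i hi hi' => lt_irrefl _ (h i hi i hi')
  have hIJK : ∀ i ∈ I, ∀ j ∈ J ∪ K, i < j := fun i hi j hj => by
    rcases mem_union.1 hj with hj | hj
    · exact hIJ i hi j hj
    · exact hIK i hi j hj
  beta_reduce at e1 e2 e3 e4 e5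
  rw [prod_union (dj hJK)] at e2
  rw [prod_union (dj hIJ)] at e3
  rw [prod_union (dj hIK)] at e4
  rw [prod_union (dj hIJK), prod_union (dj hJK)] at e5
  have k1 := key J ∅ I I 1 0 hJ hJN (by simp) hI hI hIJ hIJ (by simp) (by simp)
  have k2 := key K ∅ I I 1 0 hK hKN (by simp) hI hI hIK hIK (by simp) (by simp)
  have k3 := key K ∅ I J 1 1 hK hKN (by simp) hI hJ hIK hJK (by simp) (by simp)
  have k4 := key (J ∪ K) ∅ I I 1 0 (hJ.mono subset_union_left) (fun i hi => by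
    rcases mem_union.1 hi with hi | hi
    · exact hJN i hi
    · exact hKN i hi) (by simp) hI hI hIJK hIJK (by simp) (by simp)
  have k5 := key K I J J 1 0 hK hKN hIK hJ hJ hJK hJK (by simp) (by simp)
  have k6 := key K ∅ J J 0 (-1) hK hKN (by simp) hJ hJ hJK hJK (by simp) (by simp)
  rw [prod_union (dj hJK)] at k4
  simp only [prod_empty, one_mul, zero_mul, add_zero, zero_add] at k1 k2 k3 k4 k5 k6
  have ha := hP I hIN
  have hb := hP J hJN
  have hc := hP K hKN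
  generalize ∏ i ∈ I, x i = a at *
  generalize ∏ i ∈ J, x i = b at *
  generalize ∏ i ∈ K, x i = c at *
  have f0 : χ (a + b) = χ b := by rw [add_comm, k1]
  refine ⟨a, b, c, ha, hb, hc, ?_, ?_, ?_, ?_, ?_, ?_, ?_, ?_⟩
  · rintro rfl
    rw [show b + -1 * b = 0 by ring] at k6
    exact hb (h0 _ k6.symm)
  · rw [f0, add_comm, k2, e1]
  · rw [f0, show a + (b + c) = c + (a + b) by ring, k3, e1]
  · rw [f0, add_comm, k4, e2]
  · rw [f0, e3]
  · rw [f0, e4]
  · rw [f0, add_comm b c, k5, e4]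
  · rw [f0, e5]

end Pool.Agent.H671Z.SP
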